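import Mathlib
import Pool.Agent.Lib.MP_6bc78b_nt.LL.Kernel

/-! Project MS, Part I, chapter PT: the Fejer kernel as an entire function and its Fourier
transform on the line `Re w = 1`. -/

set_option autoImplicit false

open Complex Filter Topology MeasureTheory Set

namespace Pool.Agent.Lib.MP_6bc78b_nt.MS.P1.PT

open Pool.Agent.Lib.MP_6bc78b_nt.LL

/-- The Fejer kernel `(cosh (l w) - 1)/(l w)^2 = (1/2) (sinh (l w/2)/(l w/2))^2`. -/
noncomputable def KF (l : ℝ) (w : ℂ) : ℂ := (1 / 2) * Sh (l * w / 2) ^ 2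

lemma KF_diff (l : ℝ) : Differentiable ℂ (KF l) := by
  unfold KF
  exact (((differentiable_Sh.comp (by fun_prop : Differentiable ℂ fun w : ℂ => (l:ℂ) * w / 2)).pow
    2).const_mul _)

lemma KF_zero (l : ℝ) : KF l 0 = 1 / 2 := by
  simp [KF, Sh_zero]

lemma KF_neg (l : ℝ) (w : ℂ) : KF l (-w) = KF l w := by
  unfold KF
  rw [show (l:ℂ) * -w / 2 = -((l:ℂ) * w / 2) by ring, Sh_neg]

lemma KF_conj (l : ℝ) (w : ℂ) : KF l ((starRingEnd ℂ) w) = (starRingEnd ℂ) (KF l w) := by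
  unfold KF
  rw [map_mul, map_pow, ← Sh_conj]
  have h2 : (starRingEnd ℂ) 2 = 2 := Complex.conj_ofNat 2
  simp [h2]

lemma KF_I (l x : ℝ) : ∃ r : ℝ, 0 ≤ r ∧ KF l (x * I) = (r : ℂ) := by
  have h1 : (starRingEnd ℂ) (Sh ((l:ℂ) * (x * I) / 2)) = Sh ((l:ℂ) * (x * I) / 2) := by
    rw [← Sh_conj]
    have h2 : (starRingEnd ℂ) 2 = 2 := Complex.conj_ofNat 2
    have : (starRingEnd ℂ) ((l:ℂ) * (x * I) / 2) = -((l:ℂ) * (x * I) / 2) := by
      simp [h2]; ring
    rw [this, Sh_neg]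
  obtain ⟨r, hr⟩ := Complex.conj_eq_iff_real.1 h1
  refine ⟨1 / 2 * r ^ 2, by positivity, ?_⟩
  unfold KF
  rw [hr]; push_cast; ring

lemma norm_sinh_le (z : ℂ) : ‖Complex.sinh z‖ ≤ Real.cosh z.re := by
  rw [Complex.sinh, norm_div, Real.cosh_eq]
  have h := norm_sub_le (Complex.exp z) (Complex.exp (-z))
  rw [Complex.norm_exp, Complex.norm_exp, neg_re] at h
  have : ‖(2:ℂ)‖ = 2 := by norm_num
  rw [this]
  gcongr

lemma KF_bound (l : ℝ) (w : ℂ) : ‖KF l w‖ ≤ Real.cosh (l * w.re / 2) ^ 2 / 2 := by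
  unfold KF
  rw [norm_mul, norm_pow]
  have h1 : ‖Sh ((l:ℂ) * w / 2)‖ ≤ Real.cosh (l * w.re / 2) := by
    have := norm_Sh_le ((l:ℂ) * w / 2)
    have e : ((l:ℂ) * w / 2).re = l * w.re / 2 := by simp
    rwa [e] at this
  have h2 : ‖(1 / 2 : ℂ)‖ = 1 / 2 := by norm_num
  rw [h2]
  have h3 : ‖Sh ((l:ℂ) * w / 2)‖ ^ 2 ≤ Real.cosh (l * w.re / 2) ^ 2 := by gcongr
  linarith

lemma KF_bound2 (l : ℝ) (w : ℂ) :
    l ^ 2 * ‖w‖ ^ 2 * ‖KF l w‖ ≤ 2 * Real.cosh (l * w.re / 2) ^ 2 := by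
  unfold KF
  have h1 : ‖(l:ℂ) * w / 2‖ * ‖Sh ((l:ℂ) * w / 2)‖ ≤ Real.cosh (l * w.re / 2) := by
    have := norm_sinh_le ((l:ℂ) * w / 2)
    have e : ((l:ℂ) * w / 2).re = l * w.re / 2 := by simp
    rw [e, ← mul_Sh, norm_mul] at this
    exact this
  have h3 : (‖(l:ℂ) * w / 2‖ * ‖Sh ((l:ℂ) * w / 2)‖) ^ 2 ≤ Real.cosh (l * w.re / 2) ^ 2 := by
    gcongr
  have h4 : ‖(l:ℂ) * w / 2‖ = |l| * ‖w‖ / 2 := by
    rw [norm_div, norm_mul, Complex.norm_real, Real.norm_eq_abs]; norm_num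
  rw [h4] at h3
  rw [norm_mul, norm_pow]
  have h2 : ‖(1 / 2 : ℂ)‖ = 1 / 2 := by norm_num
  rw [h2]
  have h5 : (|l| * ‖w‖ / 2 * ‖Sh ((l:ℂ) * w / 2)‖) ^ 2 =
      l ^ 2 * ‖w‖ ^ 2 / 4 * ‖Sh ((l:ℂ) * w / 2)‖ ^ 2 := by
    rw [mul_pow, div_pow, mul_pow, sq_abs]; ring
  rw [h5] at h3
  linarith

lemma KF_eq {l : ℝ} (hl : l ≠ 0) {w : ℂ} (hw : w ≠ 0) :
    KF l w = (Complex.cosh (l * w) - 1) / ((l:ℂ) * w) ^ 2 := by
  have hl' : (l:ℂ) ≠ 0 := by exact_mod_cast hl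
  unfold KF
  rw [Sh_eq (by
    intro h
    have : (l:ℂ) * w = 0 := by linear_combination 2 * h
    rcases mul_eq_zero.1 this with h1 | h1
    · exact hl' h1
    · exact hw h1)]
  have e : Complex.cosh ((l:ℂ) * w) - 1 = 2 * Complex.sinh ((l:ℂ) * w / 2) ^ 2 := by
    have h1 : (l:ℂ) * w = 2 * ((l:ℂ) * w / 2) := by ring
    conv_lhs => rw [h1]
    rw [Complex.cosh_two_mul, Complex.cosh_sq]; ring
  rw [e]
  field_simp

/-- on `|Re w| ≤ 1` the kernel is `O(1/(1+|Im w|^2))`. -/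
lemma KF_decay {l : ℝ} (hl : 0 < l) {w : ℂ} (hw : |w.re| ≤ 1) :
    ‖KF l w‖ ≤ (Real.exp l * (1 / 2 + 2 / l ^ 2)) / (1 + w.im ^ 2) := by
  have hc : Real.cosh (l * w.re / 2) ^ 2 ≤ Real.exp l := by
    have h1 : Real.cosh (l * w.re / 2) ≤ Real.exp (l / 2) := by
      refine (cosh_le_exp_abs _).trans (Real.exp_le_exp.2 ?_)
      rw [abs_div, abs_mul, abs_of_pos hl, abs_two]
      nlinarith
    calc Real.cosh (l * w.re / 2) ^ 2 ≤ Real.exp (l / 2) ^ 2 := by
          gcongr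
      _ = Real.exp l := by rw [← Real.exp_nat_mul]; congr 1; push_cast; ring
  have h1 := KF_bound l w
  have h2 := KF_bound2 l w
  have h3 : w.im ^ 2 ≤ ‖w‖ ^ 2 := by
    rw [← Complex.normSq_eq_norm_sq, Complex.normSq_apply]; nlinarith [sq_nonneg w.re]
  rw [le_div_iff₀ (by positivity)]
  have h4 : l ^ 2 * w.im ^ 2 * ‖KF l w‖ ≤ 2 * Real.exp l := by
    calc l ^ 2 * w.im ^ 2 * ‖KF l w‖ ≤ l ^ 2 * ‖w‖ ^ 2 * ‖KF l w‖ := by gcongr
      _ ≤ 2 * Real.cosh (l * w.re / 2) ^ 2 := h2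
      _ ≤ 2 * Real.exp l := by gcongr
  have h5 : w.im ^ 2 * ‖KF l w‖ ≤ 2 * Real.exp l / l ^ 2 := by
    rw [le_div_iff₀ (by positivity)]; linarith
  have h6 : ‖KF l w‖ ≤ Real.exp l / 2 := h1.trans (by gcongr)
  have : Real.exp l * (1 / 2 + 2 / l ^ 2) = Real.exp l / 2 + 2 * Real.exp l / l ^ 2 := by ring
  rw [this]
  linarith [mul_comm (w.im ^ 2) ‖KF l w‖]

/-- on `Re w = 1`, sharp form. -/
lemma KF_line {l : ℝ} (hl : 0 < l) (x : ℝ) :
    ‖KF l (1 + x * I)‖ ≤ 2 * Real.exp l / l ^ 2 / (1 + x ^ 2) := by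
  have hc : Real.cosh (l / 2) ^ 2 ≤ Real.exp l := by
    have h1 : Real.cosh (l / 2) ≤ Real.exp (l / 2) := by
      refine (cosh_le_exp_abs _).trans (Real.exp_le_exp.2 ?_)
      rw [abs_of_pos (by positivity)]
    calc Real.cosh (l / 2) ^ 2 ≤ Real.exp (l / 2) ^ 2 := by
          gcongr
      _ = Real.exp l := by rw [← Real.exp_nat_mul]; congr 1; push_cast; ring
  have h2 := KF_bound2 l (1 + x * I)
  have h3 : ‖(1 + x * I : ℂ)‖ ^ 2 = 1 + x ^ 2 := by
    rw [← Complex.normSq_eq_norm_sq, Complex.normSq_apply]; simp; ring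
  rw [h3] at h2
  have e : (1 + x * I : ℂ).re = 1 := by simp
  rw [e, mul_one] at h2
  rw [div_div, le_div_iff₀ (by positivity)]
  linarith

/-- the triangle. -/
noncomputable def tri (l v : ℝ) : ℝ := (1 / (2 * l)) * max 0 (1 - |v| / l)

lemma tri_cont (l : ℝ) : Continuous (tri l) := by unfold tri; fun_prop

lemma tri_eq_zero {l v : ℝ} (hl : 0 < l) (h : l ≤ |v|) : tri l v = 0 := by
  unfold tri
  have : 1 - |v| / l ≤ 0 := by rw [sub_nonpos, le_div_iff₀ hl]; linarith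
  rw [max_eq_left this, mul_zero]

lemma half_int {l : ℝ} (hl : 0 < l) {w : ℂ} (hw : w ≠ 0) :
    ∫ v in (0:ℝ)..l, ((1 - v / l : ℝ) : ℂ) * Complex.exp (v * w) =
      Complex.exp (l * w) / (l * w ^ 2) - 1 / w - 1 / (l * w ^ 2) := by
  have hl' : (l:ℂ) ≠ 0 := by exact_mod_cast hl.ne'
  have hd : ∀ v ∈ uIcc (0:ℝ) l, HasDerivAt (fun v : ℝ => ((1 - (v:ℂ) / l) / w + 1 / (l * w ^ 2)) *
      Complex.exp (v * w)) (((1 - v / l : ℝ) : ℂ) * Complex.exp (v * w)) v := by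
    intro v _
    have h1 : HasDerivAt (fun v : ℝ => (1 - (v:ℂ) / l) / w + 1 / (l * w ^ 2))
        ((0 - 1 / l) / w) v := by
      have := ((((hasDerivAt_const v (1:ℂ)).sub ((Complex.ofRealCLM.hasDerivAt (x := v)).div_const
        (l:ℂ))).div_const w).add_const (1 / ((l:ℂ) * w ^ 2)))
      simpa using this
    have h2 : HasDerivAt (fun v : ℝ => Complex.exp (v * w)) (Complex.exp (v * w) * w) v := by
      have := ((Complex.ofRealCLM.hasDerivAt (x := v)).mul_const w).cexp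
      simpa using this
    have h3 := h1.mul h2
    have e : ((1 - v / l : ℝ) : ℂ) * Complex.exp (v * w) =
        (0 - 1 / (l:ℂ)) / w * Complex.exp (v * w) +
          ((1 - (v:ℂ) / l) / w + 1 / (l * w ^ 2)) * (Complex.exp (v * w) * w) := by
      push_cast
      field_simp
      ring
    rw [e]
    exact h3
  rw [intervalIntegral.integral_eq_sub_of_hasDerivAt hd ((by fun_prop :
    Continuous (fun v : ℝ => ((1 - v / l : ℝ) : ℂ) * Complex.exp (v * w))).intervalIntegrable _ _)]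
  push_cast
  rw [div_self hl', sub_self, zero_div, zero_mul, Complex.exp_zero]
  field_simp
  ring

/-- the bilateral Laplace transform of the triangle. -/
lemma tri_laplace {l : ℝ} (hl : 0 < l) {w : ℂ} (hw : w ≠ 0) :
    ∫ v : ℝ, (tri l v : ℂ) * Complex.exp (v * w) = KF l w := by
  have hl' : (l:ℂ) ≠ 0 := by exact_mod_cast hl.ne'
  have hs : Function.support (fun v : ℝ => (tri l v : ℂ) * Complex.exp (v * w)) ⊆
      Ioc (-l) l := by
    intro v hv
    by_contra h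
    apply hv
    have : l ≤ |v| := by
      rw [mem_Ioc, not_and_or, not_lt, not_le] at h
      rcases h with h | h
      · rw [abs_of_neg (by linarith)]; linarith
      · rw [abs_of_pos (by linarith)]; linarith
    simp [tri_eq_zero hl this]
  rw [← intervalIntegral.integral_eq_integral_of_support_subset hs]
  have hc : Continuous (fun v : ℝ => (tri l v : ℂ) * Complex.exp (v * w)) := by
    have := tri_cont l
    fun_prop
  rw [← intervalIntegral.integral_add_adjacent_intervals (hc.intervalIntegrable (-l) 0)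
    (hc.intervalIntegrable 0 l)]
  have e1 : ∫ v in (0:ℝ)..l, (tri l v : ℂ) * Complex.exp (v * w) =
      (1 / (2 * l) : ℂ) * ∫ v in (0:ℝ)..l, ((1 - v / l : ℝ) : ℂ) * Complex.exp (v * w) := by
    rw [← intervalIntegral.integral_const_mul]
    apply intervalIntegral.integral_congr
    intro v hv
    rw [uIcc_of_le hl.le] at hv
    have h1 : tri l v = (1 / (2 * l)) * (1 - v / l) := by
      unfold tri
      rw [abs_of_nonneg hv.1, max_eq_right]
      rw [sub_nonneg, div_le_one hl]; exact hv.2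
    simp only
    rw [h1]; push_cast; ring
  have e2 : ∫ v in (-l)..(0:ℝ), (tri l v : ℂ) * Complex.exp (v * w) =
      (1 / (2 * l) : ℂ) * ∫ v in (0:ℝ)..l, ((1 - v / l : ℝ) : ℂ) * Complex.exp (v * -w) := by
    have h0 := intervalIntegral.integral_comp_neg (a := 0) (b := l)
      (fun v : ℝ => (tri l v : ℂ) * Complex.exp (v * w))
    rw [neg_zero] at h0
    rw [← h0, ← intervalIntegral.integral_const_mul]
    apply intervalIntegral.integral_congr
    intro v hv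
    rw [uIcc_of_le hl.le] at hv
    have h1 : tri l (-v) = (1 / (2 * l)) * (1 - v / l) := by
      unfold tri
      rw [abs_neg, abs_of_nonneg hv.1, max_eq_right]
      rw [sub_nonneg, div_le_one hl]; exact hv.2
    simp only
    rw [h1]; push_cast
    rw [show -(v:ℂ) * w = v * -w by ring]; ring
  rw [e1, e2, half_int hl hw, half_int hl (neg_ne_zero.2 hw), KF_eq hl.ne' hw, Complex.cosh,
    mul_neg]
  field_simp
  ring

end Pool.Agent.Lib.MP_6bc78b_nt.MS.P1.PT
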