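import Mathlib
import Pool.Agent.Lib.MP_6bc78b_nt.MS.P1.PT.Ker

/-! Project MS, Part I, chapter PT: Fourier inversion for the Fejer kernel on `Re w = 1`. -/

set_option autoImplicit false

open Complex Filter Topology MeasureTheory Set
open scoped FourierTransform

namespace Pool.Agent.Lib.MP_6bc78b_nt.MS.P1.PT

open Pool.Agent.Lib.MP_6bc78b_nt.LL

lemma integrable_inv_one_add (C : ℝ) : Integrable (fun x : ℝ => C / (1 + x ^ 2)) := by
  have := integrable_inv_one_add_sq.const_mul C
  simpa [div_eq_mul_inv] using this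

lemma KF_line_cont (l : ℝ) : Continuous (fun x : ℝ => KF l (1 + x * I)) :=
  (KF_diff l).continuous.comp (by fun_prop)

lemma KF_line_integrable {l : ℝ} (hl : 0 < l) :
    Integrable (fun x : ℝ => KF l (1 + x * I)) := by
  refine (integrable_inv_one_add (2 * Real.exp l / l ^ 2)).mono'
    (KF_line_cont l).aestronglyMeasurable (Eventually.of_forall fun x => KF_line hl x)

lemma tri_exp_cont (l : ℝ) : Continuous (fun v : ℝ => (tri l v : ℂ) * Complex.exp v) := by
  have := tri_cont l
  fun_prop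

lemma tri_exp_integrable {l : ℝ} (hl : 0 < l) :
    Integrable (fun v : ℝ => (tri l v : ℂ) * Complex.exp v) := by
  apply (tri_exp_cont l).integrable_of_hasCompactSupport
  apply HasCompactSupport.intro (isCompact_Icc (a := -l) (b := l))
  intro v hv
  have : l ≤ |v| := by
    rw [mem_Icc, not_and_or, not_le, not_le] at hv
    rcases hv with h | h
    · rw [abs_of_neg (by linarith)]; linarith
    · rw [abs_of_pos (by linarith)]; linarith
  simp [tri_eq_zero hl this]

lemma fourier_tri {l : ℝ} (hl : 0 < l) (ξ : ℝ) :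
    𝓕 (fun v : ℝ => (tri l v : ℂ) * Complex.exp v) ξ =
      KF l (1 + ((-2 * Real.pi * ξ : ℝ) : ℂ) * I) := by
  rw [Real.fourier_real_eq_integral_exp_smul]
  have hw : (1 + ((-2 * Real.pi * ξ : ℝ) : ℂ) * I : ℂ) ≠ 0 := by
    intro h
    have := congrArg Complex.re h
    simp at this
  rw [← tri_laplace hl hw]
  congr 1
  funext v
  rw [smul_eq_mul, mul_left_comm, ← Complex.exp_add]
  congr 2
  push_cast
  ring

/-- Fourier inversion on the line `Re w = 1`. -/
lemma tri_inv {l : ℝ} (hl : 0 < l) (v : ℝ) :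
    ∫ x : ℝ, Complex.exp (-(v : ℂ) * (1 + x * I)) * KF l (1 + x * I) =
      2 * Real.pi * (tri l v : ℂ) := by
  have hF : 𝓕 (fun v : ℝ => (tri l v : ℂ) * Complex.exp v) = fun ξ : ℝ =>
      KF l (1 + ((-2 * Real.pi * ξ : ℝ) : ℂ) * I) := by
    funext ξ; exact fourier_tri hl ξ
  have hFi : Integrable (𝓕 (fun v : ℝ => (tri l v : ℂ) * Complex.exp v)) := by
    rw [hF]
    have h := (KF_line_integrable hl).comp_mul_left' (R := -2 * Real.pi)
      (by have := Real.pi_pos; nlinarith)
    exact h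
  have h := congrFun ((tri_exp_cont l).fourierInv_fourier_eq (tri_exp_integrable hl) hFi) v
  rw [hF, Real.fourierInv_eq'] at h
  have hsub := Measure.integral_comp_mul_left (fun x : ℝ => Complex.exp (-(v : ℂ) * (x * I)) *
    KF l (1 + x * I)) (-2 * Real.pi)
  have e1 : ∫ x : ℝ, Complex.exp ((2 * Real.pi * inner ℝ x v : ℝ) * I) •
      KF l (1 + ((-2 * Real.pi * x : ℝ) : ℂ) * I) =
      ∫ x : ℝ, Complex.exp (-(v : ℂ) * (((-2 * Real.pi * x : ℝ) : ℂ) * I)) *
        KF l (1 + ((-2 * Real.pi * x : ℝ) : ℂ) * I) := by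
    congr 1
    funext x
    rw [smul_eq_mul]
    congr 2
    simp
    ring
  have hv : ∫ x : ℝ, Complex.exp (-(v : ℂ) * (1 + x * I)) * KF l (1 + x * I) =
      Complex.exp (-(v : ℂ)) * ∫ x : ℝ, Complex.exp (-(v : ℂ) * (x * I)) *
        KF l (1 + x * I) := by
    rw [← integral_const_mul]
    congr 1
    funext x
    rw [← mul_assoc, ← Complex.exp_add]
    congr 2
    ring
  have habs : |(-2 * Real.pi)⁻¹| = (2 * Real.pi)⁻¹ := by
    rw [abs_inv, show (-2 * Real.pi) = -(2 * Real.pi) by ring, abs_neg,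
      abs_of_pos (by have := Real.pi_pos; positivity)]
  rw [e1] at h
  rw [habs] at hsub
  rw [hsub] at h
  have hpi : (2 * Real.pi : ℂ) ≠ 0 := by
    have := Real.pi_pos.ne'
    exact mul_ne_zero two_ne_zero (by exact_mod_cast this)
  have h2 : ∫ x : ℝ, Complex.exp (-(v : ℂ) * (x * I)) * KF l (1 + x * I) =
      2 * Real.pi * ((tri l v : ℂ) * Complex.exp v) := by
    rw [← h, Complex.real_smul]
    push_cast
    rw [← mul_assoc, mul_inv_cancel₀ hpi, one_mul]
  rw [hv, h2]
  have : Complex.exp (-(v : ℂ)) * Complex.exp v = 1 := by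
    rw [← Complex.exp_add]; simp
  linear_combination (2 * Real.pi * (tri l v : ℂ)) * this

end Pool.Agent.Lib.MP_6bc78b_nt.MS.P1.PT
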