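import Mathlib
import Pool.Agent.Lib.MP_6bc78b_nt.MS.P1.PT.Inv
import Pool.Agent.Lib.MP_6bc78b_nt.MS.Defs

/-! Project MS, Part I, chapter PT: the Dirichlet series part of the contour integral. -/

set_option autoImplicit false

open Complex Filter Topology MeasureTheory Set ArithmeticFunction

namespace Pool.Agent.Lib.MP_6bc78b_nt.MS.P1.PT

open Pool.Agent.Lib.MP_6bc78b_nt.LL

/-- the kernel on the line `Re = 3/2`, centred at `y`. -/
lemma KF_shift_integrable {l : ℝ} (hl : 0 < l) (y : ℝ) :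
    Integrable (fun t : ℝ => KF l (1 + ((t - y : ℝ) : ℂ) * I)) := by
  have h := (KF_line_integrable hl).comp_sub_right y
  exact h

/-- `n^{-(3/2+it)}` against the kernel. -/
lemma term_integral {l : ℝ} (hl : 0 < l) (y : ℝ) {n : ℕ} (hn : n ≠ 0) :
    ∫ t : ℝ, (n : ℂ) ^ (-((3 / 2 : ℝ) + t * I : ℂ)) * KF l (1 + ((t - y : ℝ) : ℂ) * I) =
      (n : ℂ) ^ (-(1 / 2 + y * I : ℂ)) * (2 * Real.pi * (tri l (Real.log n) : ℂ)) := by
  have hn0 : (n : ℂ) ≠ 0 := by exact_mod_cast hn
  rw [← tri_inv hl (Real.log n), ← integral_const_mul]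
  rw [← integral_sub_right_eq_self (fun x : ℝ => (n : ℂ) ^ (-(1 / 2 + y * I : ℂ)) *
    (Complex.exp (-((Real.log n : ℝ) : ℂ) * (1 + x * I)) * KF l (1 + x * I))) y]
  congr 1
  funext t
  rw [← mul_assoc]
  congr 1
  rw [Complex.cpow_def_of_ne_zero hn0, Complex.cpow_def_of_ne_zero hn0, ← Complex.exp_add,
    Complex.natCast_log.symm]
  congr 1
  push_cast
  ring

theorem dir_part {lam T : ℝ} (hT : 1 < T) (hlam : 0 < lam) (y : ℝ) :
    Integrable (fun t : ℝ => logDeriv riemannZeta ((3 / 2 : ℝ) + t * I) *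
      KF (lam * Real.log T) (1 + ((t - y : ℝ) : ℂ) * I)) ∧
    ∫ t : ℝ, logDeriv riemannZeta ((3 / 2 : ℝ) + t * I) *
      KF (lam * Real.log T) (1 + ((t - y : ℝ) : ℂ) * I) =
      -(Real.pi * BB lam T (1 / 2 + y * I)) := by
  obtain ⟨l, hl'⟩ : ∃ l, l = lam * Real.log T := ⟨_, rfl⟩
  have hl : 0 < l := by rw [hl']; have := Real.log_pos hT; positivity
  rw [← hl']
  obtain ⟨Lm, hLm⟩ : ∃ Lm : ℕ → ℂ, Lm = fun n => ((vonMangoldt n : ℝ) : ℂ) := ⟨_, rfl⟩
  have hL0 : Lm 0 = 0 := by rw [hLm]; simp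
  have hre : ∀ t : ℝ, ((3 / 2 : ℝ) + t * I : ℂ).re = 3 / 2 := fun t => by simp
  have hs : ∀ t : ℝ, 1 < ((3 / 2 : ℝ) + t * I : ℂ).re := fun t => by rw [hre]; norm_num
  have hld : ∀ t : ℝ, logDeriv riemannZeta ((3 / 2 : ℝ) + t * I) =
      -∑' n, LSeries.term Lm ((3 / 2 : ℝ) + t * I) n := by
    intro t
    have h := LSeries_vonMangoldt_eq_deriv_riemannZeta_div (hs t)
    rw [logDeriv_apply, hLm]
    rw [LSeries] at h
    rw [h]; ring
  obtain ⟨F, hF⟩ : ∃ F : ℕ → ℝ → ℂ, F = fun (n : ℕ) (t : ℝ) => LSeries.term Lm ((3 / 2 : ℝ) + t * I) n *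
    KF l (1 + ((t - y : ℝ) : ℂ) * I) := ⟨_, rfl⟩
  have hFe : ∀ n t, F n t = LSeries.term Lm ((3 / 2 : ℝ) + t * I) n *
    KF l (1 + ((t - y : ℝ) : ℂ) * I) := fun n t => by rw [hF]
  have hFn : ∀ n t, ‖F n t‖ = ‖LSeries.term Lm (3 / 2 : ℝ) n‖ *
      ‖KF l (1 + ((t - y : ℝ) : ℂ) * I)‖ := by
    intro n t
    rw [hFe, norm_mul, LSeries.norm_term_eq, LSeries.norm_term_eq, hre, Complex.ofReal_re]
  have hcont : ∀ n, Continuous (fun t : ℝ => LSeries.term Lm ((3 / 2 : ℝ) + t * I) n) := by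
    intro n
    by_cases hn : n = 0
    · subst hn; simp only [LSeries.term_zero]; exact continuous_const
    · simp only [LSeries.term_def₀ hL0]
      have hn0 : (n : ℂ) ≠ 0 := by exact_mod_cast hn
      apply Continuous.mul continuous_const
      apply Continuous.const_cpow (by fun_prop) (Or.inl hn0)
  have hKc : Continuous (fun t : ℝ => KF l (1 + ((t - y : ℝ) : ℂ) * I)) :=
    (KF_diff l).continuous.comp (by fun_prop)
  have hKi := KF_shift_integrable hl y
  have hFi : ∀ n, Integrable (F n) := by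
    intro n
    refine (hKi.norm.const_mul (‖LSeries.term Lm (3 / 2 : ℝ) n‖)).mono' ?_ ?_
    · rw [hF]; exact ((hcont n).mul hKc).aestronglyMeasurable
    · exact Eventually.of_forall fun t => (hFn n t).le
  have hsumm : Summable (fun n => ∫ t, ‖F n t‖) := by
    have h1 : (fun n => ∫ t, ‖F n t‖) = fun n => ‖LSeries.term Lm (3 / 2 : ℝ) n‖ *
        ∫ t, ‖KF l (1 + ((t - y : ℝ) : ℂ) * I)‖ := by
      funext n
      rw [← integral_const_mul]
      congr 1
      funext t
      exact hFn n t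
    rw [h1]
    apply Summable.mul_right
    have h2 : LSeriesSummable (fun n => ((vonMangoldt n : ℝ) : ℂ)) (3 / 2 : ℝ) :=
      LSeriesSummable_vonMangoldt (by simp; norm_num)
    rw [← hLm] at h2
    exact h2.norm
  have hmain := hasSum_integral_of_summable_integral_norm hFi hsumm
  have hts : ∀ t, ∑' n, F n t = -(logDeriv riemannZeta ((3 / 2 : ℝ) + t * I) *
      KF l (1 + ((t - y : ℝ) : ℂ) * I)) := by
    intro t
    rw [hld]
    simp only [hFe]
    rw [tsum_mul_right]
    ring
  have hS2 : Summable (fun n => ‖LSeries.term Lm (3 / 2 : ℝ) n‖) := by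
    have h2 : LSeriesSummable (fun n => ((vonMangoldt n : ℝ) : ℂ)) (3 / 2 : ℝ) :=
      LSeriesSummable_vonMangoldt (by simp; norm_num)
    rw [← hLm] at h2
    exact h2.norm
  have hldc : Continuous (fun t : ℝ => logDeriv riemannZeta ((3 / 2 : ℝ) + t * I)) := by
    rw [continuous_iff_continuousAt]
    intro t
    have h1 : ((3 / 2 : ℝ) + t * I : ℂ) ≠ 1 := by
      intro h
      have := congrArg Complex.re h
      rw [hre] at this
      norm_num at this
    have h2 : riemannZeta ((3 / 2 : ℝ) + t * I) ≠ 0 :=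
      riemannZeta_ne_zero_of_one_le_re (by rw [hre]; norm_num)
    have h3 : AnalyticAt ℂ riemannZeta ((3 / 2 : ℝ) + t * I) :=
      (DifferentiableOn.analyticAt (s := {(1:ℂ)}ᶜ)
        (fun z hz => (differentiableAt_riemannZeta hz).differentiableWithinAt)
        (isOpen_compl_singleton.mem_nhds h1))
    have h4 : ContinuousAt (logDeriv riemannZeta) ((3 / 2 : ℝ) + t * I) :=
      h3.deriv.continuousAt.div h3.continuousAt h2
    exact ContinuousAt.comp (f := fun t : ℝ => ((3 / 2 : ℝ) + t * I : ℂ)) h4 (by fun_prop)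
  have hldb : ∀ t : ℝ, ‖logDeriv riemannZeta ((3 / 2 : ℝ) + t * I)‖ ≤
      ∑' n, ‖LSeries.term Lm (3 / 2 : ℝ) n‖ := by
    intro t
    rw [hld, norm_neg]
    have e : (fun n => ‖LSeries.term Lm ((3 / 2 : ℝ) + t * I) n‖) =
        fun n => ‖LSeries.term Lm (3 / 2 : ℝ) n‖ := by
      funext n
      rw [LSeries.norm_term_eq, LSeries.norm_term_eq, hre, Complex.ofReal_re]
    have h5 := norm_tsum_le_tsum_norm (f := fun n => LSeries.term Lm ((3 / 2 : ℝ) + t * I) n)
      (by rw [e]; exact hS2)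
    rw [e] at h5
    exact h5
  constructor
  · refine (hKi.norm.const_mul (∑' n, ‖LSeries.term Lm (3 / 2 : ℝ) n‖)).mono' ?_ ?_
    · exact (hldc.mul hKc).aestronglyMeasurable
    · refine Eventually.of_forall fun t => ?_
      rw [norm_mul]
      exact mul_le_mul_of_nonneg_right (hldb t) (norm_nonneg _)
  simp only [hts] at hmain
  rw [integral_neg] at hmain
  have hint : ∀ n, ∫ t, F n t = Real.pi * ((bb lam T n : ℂ) * (n : ℂ) ^ (-(1 / 2 + y * I : ℂ))) := by
    intro n
    by_cases hn : n = 0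
    · subst hn
      simp only [hFe, LSeries.term_zero, zero_mul, integral_zero]
      simp
    · have e1 : ∫ t, F n t = Lm n * ((n : ℂ) ^ (-(1 / 2 + y * I : ℂ)) *
          (2 * Real.pi * (tri l (Real.log n) : ℂ))) := by
        rw [← term_integral hl y hn, ← integral_const_mul]
        congr 1
        funext t
        rw [hFe, LSeries.term_def₀ hL0, mul_assoc]
      rw [e1]
      have hn1 : (1:ℝ) ≤ n := by exact_mod_cast Nat.one_le_iff_ne_zero.2 hn
      have hn2 : 0 ≤ Real.log n := Real.log_nonneg hn1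
      have hbb : bb lam T n = bbf lam T n := rfl
      have key : vonMangoldt n * (2 * tri l (Real.log n)) = bbf lam T n := by
        unfold bbf
        have hTl : T ^ lam = Real.exp l := by
          rw [hl', Real.rpow_def_of_pos (by linarith)]; ring_nf
        have hiff : (n : ℝ) ≤ T ^ lam ↔ Real.log n ≤ l := by
          rw [hTl, Real.log_le_iff_le_exp (by linarith)]
        rw [← hl']
        by_cases h : (n : ℝ) ≤ T ^ lam
        · rw [if_pos h]
          have h' := hiff.1 h
          unfold tri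
          rw [abs_of_nonneg hn2, max_eq_right]
          · field_simp
          · rw [sub_nonneg, div_le_one hl]; exact h'
        · rw [if_neg h]
          have h' : l ≤ |Real.log n| := by
            rw [abs_of_nonneg hn2]
            by_contra h6
            exact h (hiff.2 (not_le.1 h6).le)
          rw [tri_eq_zero hl h']; ring
      rw [hbb, ← key, hLm]
      push_cast
      ring
  have hfin : HasSum (fun n => ∫ t, F n t) (∑ n ∈ Finset.Icc 1 ⌊T ^ lam⌋₊, ∫ t, F n t) := by
    apply hasSum_sum_of_ne_finset_zero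
    intro n hn
    rw [hint]
    by_cases h0 : n = 0
    · subst h0; simp
    · have : bb lam T n = 0 := by
        have hbb : bb lam T n = bbf lam T n := rfl
        rw [hbb]
        unfold bbf
        rw [if_neg]
        intro h
        apply hn
        rw [Finset.mem_Icc]
        exact ⟨Nat.one_le_iff_ne_zero.2 h0, Nat.le_floor h⟩
      rw [this]; simp
  have huniq := hmain.unique hfin
  have hB : ∑ n ∈ Finset.Icc 1 ⌊T ^ lam⌋₊, ∫ t, F n t = Real.pi * BB lam T (1 / 2 + y * I) := by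
    unfold BB dpoly
    rw [Finset.mul_sum]
    apply Finset.sum_congr rfl
    intro n _
    exact hint n
  rw [hB] at huniq
  rw [← huniq, neg_neg]

end Pool.Agent.Lib.MP_6bc78b_nt.MS.P1.PT
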