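import Mathlib
import Pool.Agent.Lib.MP_6bc78b_nt.MS.P1.PT.Dir
import Pool.Agent.Lib.MP_6bc78b_nt.H11.Digamma
import Pool.Agent.Lib.MP_6bc78b_nt.H11.ZSum

/-! Project MS, Part I, chapter PT: the Gamma factor on the line `Re s = 3/2`. -/

set_option autoImplicit false

open Complex Filter Topology MeasureTheory Set

namespace Pool.Agent.Lib.MP_6bc78b_nt.MS.P1.PT

open Pool.Agent.Lib.MP_6bc78b_nt Pool.Agent.Lib.MP_6bc78b_nt.LL Pool.Agent.Lib.MP_6bc78b_nt.H11

/-- the logarithmic derivative of the real Gamma factor. -/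
lemma logDeriv_Gammaℝ_eq {s : ℂ} (hs : 0 < s.re) :
    logDeriv Complex.Gammaℝ s = -(Real.log Real.pi : ℂ) / 2 +
      logDeriv Complex.Gamma (s / 2) / 2 := by
  have hre : (s / 2).re = s.re / 2 := by simp
  have hnat : ∀ m : ℕ, s / 2 ≠ -m := by
    intro m hm
    have h5 := congrArg Complex.re hm
    rw [hre] at h5
    simp at h5
    have h6 : (0:ℝ) ≤ m := Nat.cast_nonneg m
    linarith
  have hΓd : DifferentiableAt ℂ Complex.Gamma (s / 2) := Complex.differentiableAt_Gamma _ hnat
  have hΓ0 : Complex.Gamma (s / 2) ≠ 0 := Complex.Gamma_ne_zero hnat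
  have hpi : (Real.pi : ℂ) ≠ 0 := by exact_mod_cast Real.pi_ne_zero
  have e1 : Complex.Gammaℝ = fun s : ℂ => (Real.pi : ℂ) ^ (-s / 2) * Complex.Gamma (s / 2) := by
    funext s; rw [Complex.Gammaℝ_def]
  have hp0 : (Real.pi : ℂ) ^ (-s / 2) ≠ 0 := by
    rw [Complex.cpow_def_of_ne_zero hpi]; exact Complex.exp_ne_zero _
  have d1 : HasDerivAt (fun s : ℂ => (Real.pi : ℂ) ^ (-s / 2))
      ((Real.pi : ℂ) ^ (-s / 2) * Complex.log Real.pi * (-1 / 2)) s := by
    have := (((hasDerivAt_id s).neg).div_const 2).const_cpow (c := (Real.pi : ℂ)) (Or.inl hpi)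
    simpa using this
  have d2 : HasDerivAt (fun s : ℂ => Complex.Gamma (s / 2))
      (deriv Complex.Gamma (s / 2) * (1 / 2)) s := by
    exact hΓd.hasDerivAt.comp s ((hasDerivAt_id s).div_const 2)
  have d3 : HasDerivAt (fun s : ℂ => (Real.pi : ℂ) ^ (-s / 2) * Complex.Gamma (s / 2)) _ s :=
    d1.mul d2
  rw [e1, logDeriv_apply, d3.deriv, logDeriv_apply]
  have hlog : Complex.log (Real.pi : ℂ) = (Real.log Real.pi : ℂ) := by
    rw [Complex.ofReal_log Real.pi_pos.le]
  rw [hlog]
  field_simp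

/-- difference of logarithms in the right half plane. -/
lemma log_sub_log {s w : ℂ} (hs : 0 < s.re) (hw : 0 < w.re) :
    log s - log w = log (s / w) := by
  have hs0 : s ≠ 0 := by rintro rfl; simp at hs
  have hw0 : w ≠ 0 := by rintro rfl; simp at hw
  have a1 : |arg s| < Real.pi / 2 := abs_arg_lt_pi_div_two_iff.2 (Or.inl hs)
  have a2 : |arg w| < Real.pi / 2 := abs_arg_lt_pi_div_two_iff.2 (Or.inl hw)
  rw [abs_lt] at a1 a2
  have hp := Real.pi_pos
  have a3 : arg w ≠ Real.pi := by linarith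
  rw [div_eq_mul_inv, Complex.log_mul hs0 (inv_ne_zero hw0)]
  · rw [Complex.log_inv _ a3]; ring
  · rw [Complex.arg_inv, if_neg a3]
    constructor <;> linarith

/-- `log` on the line `Re s = 3/2`. -/
lemma log_diff {a : ℝ} (ha : 0 < a) (ha1 : a ≤ 1) {y : ℝ} (hy : 3 ≤ y) (t : ℝ) :
    ‖log ((3 / 2 : ℝ) + t * I) - log ((3 / 2 : ℝ) + y * I)‖ ≤
      (12 + 3 / a) * Real.log y * ((1 + |t - y|) / y) ^ a := by
  obtain ⟨s, hs⟩ : ∃ s : ℂ, s = (3 / 2 : ℝ) + t * I := ⟨_, rfl⟩
  obtain ⟨w, hw⟩ : ∃ w : ℂ, w = (3 / 2 : ℝ) + y * I := ⟨_, rfl⟩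
  have hsre : s.re = 3 / 2 := by rw [hs]; simp
  have hwre : w.re = 3 / 2 := by rw [hw]; simp
  have hwim : w.im = y := by rw [hw]; simp
  rw [← hs, ← hw, log_sub_log (by rw [hsre]; norm_num) (by rw [hwre]; norm_num)]
  have hw0 : w ≠ 0 := by intro h; rw [h] at hwre; norm_num at hwre
  have hy0 : 0 < y := by linarith
  have hwn : y ≤ ‖w‖ := by
    have := Complex.abs_im_le_norm w
    rw [hwim, abs_of_pos hy0] at this
    exact this
  have hwn0 : 0 < ‖w‖ := by linarith
  obtain ⟨z, hz⟩ : ∃ z : ℂ, z = (t - y : ℝ) * I / w := ⟨_, rfl⟩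
  have hsw : s / w = 1 + z := by
    rw [hz, div_eq_iff hw0, add_mul, div_mul_cancel₀ _ hw0, hs, hw]
    push_cast; ring
  have hzn : ‖z‖ = |t - y| / ‖w‖ := by
    rw [hz, norm_div, norm_mul, Complex.norm_real, Complex.norm_I, mul_one, Real.norm_eq_abs]
  obtain ⟨r, hr⟩ : ∃ r : ℝ, r = (1 + |t - y|) / y := ⟨_, rfl⟩
  have hr0 : 0 < r := by rw [hr]; positivity
  have hzr : ‖z‖ ≤ r := by
    rw [hzn, hr, div_le_div_iff₀ hwn0 hy0]
    have := abs_nonneg (t - y)
    nlinarith
  rw [← hr]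
  have hlogy : 1 ≤ Real.log y := by
    rw [Real.le_log_iff_exp_le hy0]
    exact Real.exp_one_lt_d9.le.trans (by linarith)
  have hra : 0 < r ^ a := Real.rpow_pos_of_pos hr0 a
  have h3a : 0 < 3 / a := by positivity
  rcases le_total ‖z‖ (1 / 2) with h | h
  · have h1 : ‖log (s / w)‖ ≤ 3 / 2 * ‖z‖ := by
      rw [hsw]; exact Complex.norm_log_one_add_half_le_self h
    have h2 : ‖z‖ ≤ r ^ a := by
      rcases le_total r 1 with hr1 | hr1
      · refine hzr.trans ?_
        calc r = r ^ (1:ℝ) := (Real.rpow_one r).symm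
          _ ≤ r ^ a := Real.rpow_le_rpow_of_exponent_ge hr0 hr1 ha1
      · have : 1 ≤ r ^ a := Real.one_le_rpow hr1 ha.le
        linarith
    calc ‖log (s / w)‖ ≤ 3 / 2 * ‖z‖ := h1
      _ ≤ 12 * 1 * r ^ a := by linarith
      _ ≤ (12 + 3 / a) * Real.log y * r ^ a := by gcongr; linarith
  · have hs0 : s ≠ 0 := by intro h; rw [h] at hsre; norm_num at hsre
    have h1 : ‖log (s / w)‖ ≤ |Real.log ‖s / w‖| + Real.pi := by
      have h2 := Complex.norm_le_abs_re_add_abs_im (log (s / w))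
      rw [Complex.log_re, Complex.log_im] at h2
      have h3 := Complex.abs_arg_le_pi (s / w)
      linarith
    have hsn : 1 ≤ ‖s‖ := by
      have := Complex.abs_re_le_norm s
      rw [hsre, abs_of_pos (by norm_num)] at this
      linarith
    have hwn2 : ‖w‖ ≤ y ^ 2 := by
      have h2 := Complex.norm_le_abs_re_add_abs_im w
      rw [hwre, hwim, abs_of_pos hy0, abs_of_pos (by norm_num)] at h2
      nlinarith
    have h4 : Real.log ‖w‖ ≤ 2 * Real.log y := by
      have := Real.log_le_log hwn0 hwn2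
      rw [Real.log_pow] at this
      push_cast at this
      exact this
    have h5 : |Real.log ‖s / w‖| ≤ Real.log (1 + r) + 2 * Real.log y := by
      rw [abs_le]
      have hr1 : 0 ≤ Real.log (1 + r) := Real.log_nonneg (by linarith)
      constructor
      · rw [norm_div, Real.log_div (by linarith) hwn0.ne']
        have := Real.log_nonneg hsn
        linarith
      · have h6 : ‖s / w‖ ≤ 1 + r := by
          rw [hsw]
          refine (norm_add_le _ _).trans ?_
          rw [norm_one]; linarith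
        have h7 : 0 < ‖s / w‖ := by rw [norm_div]; positivity
        have := Real.log_le_log h7 h6
        linarith
    have h6 : Real.log (1 + r) ≤ (3 / a) * r ^ a := by
      have h7 := Real.log_le_rpow_div (by linarith : (0:ℝ) ≤ 1 + r) ha
      have h8 : (1 + r) ^ a ≤ (3 * r) ^ a :=
        Real.rpow_le_rpow (by linarith) (by linarith) ha.le
      rw [Real.mul_rpow (by norm_num) hr0.le] at h8
      have h9 : (3:ℝ) ^ a ≤ 3 := by
        calc (3:ℝ) ^ a ≤ 3 ^ (1:ℝ) := Real.rpow_le_rpow_of_exponent_le (by norm_num) ha1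
          _ = 3 := Real.rpow_one 3
      calc Real.log (1 + r) ≤ (1 + r) ^ a / a := h7
        _ ≤ (3 * r ^ a) / a := by
            gcongr
            refine h8.trans ?_
            gcongr
        _ = _ := by ring
    have h7 : 1 ≤ 2 * r ^ a := by
      have h8 : (1:ℝ) ≤ (2 * r) ^ a := Real.one_le_rpow (by linarith) ha.le
      rw [Real.mul_rpow (by norm_num) hr0.le] at h8
      have h9 : (2:ℝ) ^ a ≤ 2 := by
        calc (2:ℝ) ^ a ≤ 2 ^ (1:ℝ) := Real.rpow_le_rpow_of_exponent_le (by norm_num) ha1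
          _ = 2 := Real.rpow_one 2
      have := mul_le_mul_of_nonneg_right h9 hra.le
      linarith
    have hpi : Real.pi ≤ 4 := Real.pi_lt_four.le
    have h8 : Real.pi + 2 * Real.log y ≤ 12 * Real.log y * r ^ a := by
      have h9 : (4 + 2 * Real.log y) * 1 ≤ (4 + 2 * Real.log y) * (2 * r ^ a) :=
        mul_le_mul_of_nonneg_left h7 (by linarith)
      have h10 : 0 ≤ (Real.log y - 1) * r ^ a := mul_nonneg (by linarith) hra.le
      nlinarith
    have h9 : (3 / a) * r ^ a ≤ (3 / a) * Real.log y * r ^ a := by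
      have : 0 ≤ (3 / a) * r ^ a := by positivity
      nlinarith
    calc ‖log (s / w)‖ ≤ |Real.log ‖s / w‖| + Real.pi := h1
      _ ≤ (3 / a) * r ^ a + 2 * Real.log y + Real.pi := by linarith
      _ ≤ (12 + 3 / a) * Real.log y * r ^ a := by nlinarith

/-- the Gamma factor on the line `Re s = 3/2`. -/
lemma gam_log : ∃ C : ℝ, 0 < C ∧ ∀ t : ℝ,
    ‖gPart ((3 / 2 : ℝ) + t * I) - (1 / 2) * (log ((3 / 2 : ℝ) + t * I) -
      (Real.log (2 * Real.pi) : ℂ))‖ ≤ C / (1 + |t|) := by
  obtain ⟨F, hF⟩ : ∃ F : ℝ → ℂ, F = fun t : ℝ => gPart ((3 / 2 : ℝ) + t * I) -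
      (1 / 2) * (log ((3 / 2 : ℝ) + t * I) - (Real.log (2 * Real.pi) : ℂ)) := ⟨_, rfl⟩
  have hre : ∀ t : ℝ, ((3 / 2 : ℝ) + t * I : ℂ).re = 3 / 2 := fun t => by simp
  have him : ∀ t : ℝ, ((3 / 2 : ℝ) + t * I : ℂ).im = t := fun t => by simp
  have hne1 : ∀ t : ℝ, ((3 / 2 : ℝ) + t * I : ℂ) ≠ 1 := by
    intro t h
    have := congrArg Complex.re h
    rw [hre] at this
    norm_num at this
  have hz : ∀ t : ℝ, riemannZeta ((3 / 2 : ℝ) + t * I) ≠ 0 := fun t =>
    riemannZeta_ne_zero_of_one_le_re (by rw [hre]; norm_num)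
  have hg : ∀ t : ℝ, gPart ((3 / 2 : ℝ) + t * I) = logDeriv xi ((3 / 2 : ℝ) + t * I) -
      logDeriv riemannZeta ((3 / 2 : ℝ) + t * I) := by
    intro t
    rw [logDeriv_xi_eq (by rw [hre]; norm_num) (hne1 t) (hz t)]
    ring
  have hcont : Continuous F := by
    have c1 : Continuous (fun t : ℝ => logDeriv xi ((3 / 2 : ℝ) + t * I)) := by
      have h1 : ∀ t : ℝ, xi ((3 / 2 : ℝ) + t * I) ≠ 0 := fun t =>
        xi_ne_zero_of_one_le (by rw [hre]; norm_num)
      have : (fun t : ℝ => logDeriv xi ((3 / 2 : ℝ) + t * I)) =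
          fun t : ℝ => deriv xi ((3 / 2 : ℝ) + t * I) / xi ((3 / 2 : ℝ) + t * I) := by
        funext t; rw [logDeriv_apply]
      rw [this]
      apply Continuous.div _ _ h1
      · exact (differentiable_xi.contDiff (n := 1)).continuous_deriv_one.comp (by fun_prop)
      · exact differentiable_xi.continuous.comp (by fun_prop)
    have c2 : Continuous (fun t : ℝ => logDeriv riemannZeta ((3 / 2 : ℝ) + t * I)) := by
      rw [continuous_iff_continuousAt]
      intro t
      have h3 : AnalyticAt ℂ riemannZeta ((3 / 2 : ℝ) + t * I) :=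
        (DifferentiableOn.analyticAt (s := {(1:ℂ)}ᶜ)
          (fun z hz => (differentiableAt_riemannZeta hz).differentiableWithinAt)
          (isOpen_compl_singleton.mem_nhds (hne1 t)))
      have h4 : ContinuousAt (logDeriv riemannZeta) ((3 / 2 : ℝ) + t * I) :=
        h3.deriv.continuousAt.div h3.continuousAt (hz t)
      exact ContinuousAt.comp (f := fun t : ℝ => ((3 / 2 : ℝ) + t * I : ℂ)) h4 (by fun_prop)
    have c3 : Continuous (fun t : ℝ => log ((3 / 2 : ℝ) + t * I)) := by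
      apply Continuous.clog (by fun_prop)
      intro t
      exact Or.inl (by rw [hre]; norm_num)
    have e : F = fun t : ℝ => (logDeriv xi ((3 / 2 : ℝ) + t * I) -
        logDeriv riemannZeta ((3 / 2 : ℝ) + t * I)) -
        (1 / 2) * (log ((3 / 2 : ℝ) + t * I) - (Real.log (2 * Real.pi) : ℂ)) := by
      rw [hF]; funext t; rw [hg]
    rw [e]
    exact (c1.sub c2).sub ((c3.sub continuous_const).const_mul _ )
  obtain ⟨B, hB⟩ := (isCompact_Icc (a := (-8:ℝ)) (b := 8)).exists_bound_of_continuousOn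
    hcont.continuousOn
  refine ⟨9 * max B 0 + 10, by positivity, fun t => ?_⟩
  have hFt : gPart ((3 / 2 : ℝ) + t * I) - (1 / 2) * (log ((3 / 2 : ℝ) + t * I) -
      (Real.log (2 * Real.pi) : ℂ)) = F t := by rw [hF]
  rw [hFt]
  have ht0 := abs_nonneg t
  have hB0 : 0 ≤ max B 0 := le_max_right _ _
  rw [le_div_iff₀ (by linarith)]
  rcases le_total |t| 8 with h | h
  · have h1 := hB t (abs_le.1 h)
    have h2 : ‖F t‖ ≤ max B 0 := h1.trans (le_max_left _ _)
    have h3 := mul_le_mul h2 (by linarith : 1 + |t| ≤ 9) (by linarith) hB0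
    linarith
  · obtain ⟨s, hs⟩ : ∃ s : ℂ, s = (3 / 2 : ℝ) + t * I := ⟨_, rfl⟩
    have hsre : s.re = 3 / 2 := by rw [hs]; exact hre t
    have hsim : s.im = t := by rw [hs]; exact him t
    have h2re : (s / 2).re = 3 / 4 := by
      have : (s / 2).re = s.re / 2 := by simp
      rw [this, hsre]; norm_num
    have h2im : (s / 2).im = t / 2 := by
      have : (s / 2).im = s.im / 2 := by simp
      rw [this, hsim]
    have hd := digamma_sub_log (s := s / 2) (by rw [h2re]; norm_num)
      (by rw [h2im, abs_div, abs_two]; linarith)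
    have hl2 : log (s / 2) = log s - (Real.log 2 : ℂ) := by
      have h := log_sub_log (s := s) (w := 2) (by rw [hsre]; norm_num) (by norm_num)
      rw [← h]
      congr 1
      have h3 : ((2:ℝ) : ℂ) = 2 := by norm_num
      rw [← h3, Complex.ofReal_log (by norm_num)]
    have hlp : Real.log (2 * Real.pi) = Real.log 2 + Real.log Real.pi :=
      Real.log_mul (by norm_num) Real.pi_ne_zero
    have key : F t = 1 / s + 1 / (s - 1) + (logDeriv Gamma (s / 2) - log (s / 2)) / 2 := by
      rw [hF]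
      simp only
      rw [← hs, gPart, logDeriv_Gammaℝ_eq (by rw [hsre]; norm_num), hl2, hlp]
      push_cast
      ring
    have h5 : ‖1 / s‖ ≤ 1 / |t| := by
      rw [norm_div, norm_one]
      have := Complex.abs_im_le_norm s
      rw [hsim] at this
      exact one_div_le_one_div_of_le (by linarith) this
    have h6 : ‖1 / (s - 1)‖ ≤ 1 / |t| := by
      rw [norm_div, norm_one]
      have := Complex.abs_im_le_norm (s - 1)
      simp only [Complex.sub_im, Complex.one_im, sub_zero] at this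
      rw [hsim] at this
      exact one_div_le_one_div_of_le (by linarith) this
    have h7 : ‖(logDeriv Gamma (s / 2) - log (s / 2)) / 2‖ ≤ 3 / |t| := by
      rw [norm_div]
      rw [h2im, abs_div, abs_two] at hd
      have e : ‖(2:ℂ)‖ = 2 := by norm_num
      rw [e]
      have e2 : 3 / (|t| / 2) = 2 * (3 / |t|) := by field_simp
      rw [e2] at hd
      linarith
    have h8 : ‖F t‖ ≤ 5 / |t| := by
      rw [key]
      refine (norm_add₃_le).trans ?_
      have e : 5 / |t| = 1 / |t| + 1 / |t| + 3 / |t| := by ring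
      rw [e]
      exact add_le_add (add_le_add h5 h6) h7
    calc ‖F t‖ * (1 + |t|) ≤ (5 / |t|) * (2 * |t|) := by gcongr; linarith
      _ = 10 := by field_simp; norm_num
      _ ≤ _ := by linarith

end Pool.Agent.Lib.MP_6bc78b_nt.MS.P1.PT
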