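import Mathlib
import Pool.Agent.Lib.MP_6bc78b_nt.MS.P1.PT.Gam

/-! Project MS, Part I, chapter PT: the Gamma part of the contour integral. -/

set_option autoImplicit false

open Complex Filter Topology MeasureTheory Set

namespace Pool.Agent.Lib.MP_6bc78b_nt.MS.P1.PT

open Pool.Agent.Lib.MP_6bc78b_nt Pool.Agent.Lib.MP_6bc78b_nt.LL Pool.Agent.Lib.MP_6bc78b_nt.H11

lemma gPart_line_cont : Continuous (fun t : ℝ => gPart ((3 / 2 : ℝ) + t * I)) := by
  have hre : ∀ t : ℝ, ((3 / 2 : ℝ) + t * I : ℂ).re = 3 / 2 := fun t => by simp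
  have hne1 : ∀ t : ℝ, ((3 / 2 : ℝ) + t * I : ℂ) ≠ 1 := by
    intro t h
    have := congrArg Complex.re h
    rw [hre] at this
    norm_num at this
  have hz : ∀ t : ℝ, riemannZeta ((3 / 2 : ℝ) + t * I) ≠ 0 := fun t =>
    riemannZeta_ne_zero_of_one_le_re (by rw [hre]; norm_num)
  have hg : ∀ t : ℝ, gPart ((3 / 2 : ℝ) + t * I) = logDeriv xi ((3 / 2 : ℝ) + t * I) -
      logDeriv riemannZeta ((3 / 2 : ℝ) + t * I) := by
    intro t
    rw [logDeriv_xi_eq (by rw [hre]; norm_num) (hne1 t) (hz t)]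
    ring
  have c1 : Continuous (fun t : ℝ => logDeriv xi ((3 / 2 : ℝ) + t * I)) := by
    have h1 : ∀ t : ℝ, xi ((3 / 2 : ℝ) + t * I) ≠ 0 := fun t =>
      xi_ne_zero_of_one_le (by rw [hre]; norm_num)
    have : (fun t : ℝ => logDeriv xi ((3 / 2 : ℝ) + t * I)) =
        fun t : ℝ => deriv xi ((3 / 2 : ℝ) + t * I) / xi ((3 / 2 : ℝ) + t * I) := by
      funext t; rw [logDeriv_apply]
    rw [this]
    apply Continuous.div _ _ h1
    · exact (differentiable_xi.contDiff (n := 1)).continuous_deriv_one.comp (by fun_prop)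
    · exact differentiable_xi.continuous.comp (by fun_prop)
  have c2 : Continuous (fun t : ℝ => logDeriv riemannZeta ((3 / 2 : ℝ) + t * I)) := by
    rw [continuous_iff_continuousAt]
    intro t
    have h3 : AnalyticAt ℂ riemannZeta ((3 / 2 : ℝ) + t * I) :=
      (DifferentiableOn.analyticAt (s := {(1:ℂ)}ᶜ)
        (fun z hz => (differentiableAt_riemannZeta hz).differentiableWithinAt)
        (isOpen_compl_singleton.mem_nhds (hne1 t)))
    have h4 : ContinuousAt (logDeriv riemannZeta) ((3 / 2 : ℝ) + t * I) :=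
      h3.deriv.continuousAt.div h3.continuousAt (hz t)
    exact ContinuousAt.comp (f := fun t : ℝ => ((3 / 2 : ℝ) + t * I : ℂ)) h4 (by fun_prop)
  have e : (fun t : ℝ => gPart ((3 / 2 : ℝ) + t * I)) = fun t : ℝ =>
      logDeriv xi ((3 / 2 : ℝ) + t * I) - logDeriv riemannZeta ((3 / 2 : ℝ) + t * I) := by
    funext t; rw [hg]
  rw [e]
  exact c1.sub c2

lemma int_a {a : ℝ} (ha : 0 < a) (ha1 : a < 1) :
    Integrable (fun x : ℝ => (1 + |x|) ^ a / (1 + x ^ 2)) := by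
  have h := integrable_one_add_norm (E := ℝ) (μ := volume) (r := 2 - a)
    (by rw [Module.finrank_self]; push_cast; linarith)
  refine (h.const_mul 2).mono' ?_ (Eventually.of_forall fun x => ?_)
  · apply Continuous.aestronglyMeasurable
    apply Continuous.div
    · apply Continuous.rpow_const (by fun_prop)
      intro x
      right; exact ha.le
    · fun_prop
    · intro x; positivity
  · have hx := abs_nonneg x
    have h1 : 0 < 1 + |x| := by linarith
    rw [Real.norm_eq_abs, abs_of_nonneg (by positivity), Real.norm_eq_abs,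
      show -(2 - a) = a - 2 by ring, Real.rpow_sub h1, div_le_iff₀ (by positivity)]
    have h2 : (1 + |x|) ^ (2:ℝ) ≤ 2 * (1 + x ^ 2) := by
      rw [show (2:ℝ) = ((2:ℕ):ℝ) by norm_num, Real.rpow_natCast]
      have := sq_abs x
      push_cast
      nlinarith [sq_nonneg (1 - |x|)]
    have h3 : 0 < (1 + |x|) ^ a := Real.rpow_pos_of_pos h1 a
    have h4 : 0 < (1 + |x|) ^ (2:ℝ) := Real.rpow_pos_of_pos h1 2
    calc (1 + |x|) ^ a = (1 + |x|) ^ a / (1 + |x|) ^ (2:ℝ) * (1 + |x|) ^ (2:ℝ) := by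
          field_simp
      _ ≤ (1 + |x|) ^ a / (1 + |x|) ^ (2:ℝ) * (2 * (1 + x ^ 2)) := by gcongr
      _ = _ := by ring

/-- size of the Gamma factor near `3/2 + iy`. -/
lemma gam_diff {a : ℝ} (ha : 0 < a) (ha1 : a < 1) : ∃ K : ℝ, 0 < K ∧ ∀ y : ℝ, 3 ≤ y → ∀ t : ℝ,
    ‖gPart ((3 / 2 : ℝ) + t * I) - (1 / 2) * (log ((3 / 2 : ℝ) + y * I) -
      (Real.log (2 * Real.pi) : ℂ))‖ ≤ K * Real.log y * ((1 + |t - y|) / y) ^ a := by
  obtain ⟨C, hC, h⟩ := gam_log
  refine ⟨C + (12 + 3 / a), by positivity, fun y hy t => ?_⟩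
  have h1 := h t
  have h2 := log_diff ha ha1.le hy t
  have hy0 : 0 < y := by linarith
  have hlogy : 1 ≤ Real.log y := by
    rw [Real.le_log_iff_exp_le hy0]
    exact Real.exp_one_lt_d9.le.trans (by linarith)
  obtain ⟨r, hr⟩ : ∃ r : ℝ, r = (1 + |t - y|) / y := ⟨_, rfl⟩
  have ht0 := abs_nonneg t
  have hty := abs_nonneg (t - y)
  have hr0 : 0 < r := by rw [hr]; positivity
  have hra : 0 < r ^ a := Real.rpow_pos_of_pos hr0 a
  rw [← hr] at h2 ⊢
  have h3 : 1 / (1 + |t|) ≤ r ^ a := by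
    have h4 : 1 / (1 + |t|) ≤ r := by
      rw [hr, div_le_div_iff₀ (by linarith) hy0]
      have : y ≤ |t| + |t - y| := by
        have e : y = t - (t - y) := by ring
        calc y ≤ |y| := le_abs_self y
          _ = |t - (t - y)| := by rw [← e]
          _ ≤ |t| + |t - y| := abs_sub _ _
      nlinarith
    have h5 : 1 / (1 + |t|) ≤ 1 := by
      rw [div_le_one (by linarith)]; linarith
    have h6 : 0 < 1 / (1 + |t|) := by positivity
    calc 1 / (1 + |t|) = (1 / (1 + |t|)) ^ (1:ℝ) := (Real.rpow_one _).symm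
      _ ≤ (1 / (1 + |t|)) ^ a := Real.rpow_le_rpow_of_exponent_ge h6 h5 ha1.le
      _ ≤ r ^ a := Real.rpow_le_rpow h6.le h4 ha.le
  have e : gPart ((3 / 2 : ℝ) + t * I) - (1 / 2) * (log ((3 / 2 : ℝ) + y * I) -
      (Real.log (2 * Real.pi) : ℂ)) = (gPart ((3 / 2 : ℝ) + t * I) - (1 / 2) *
      (log ((3 / 2 : ℝ) + t * I) - (Real.log (2 * Real.pi) : ℂ))) +
      (1 / 2) * (log ((3 / 2 : ℝ) + t * I) - log ((3 / 2 : ℝ) + y * I)) := by ring
  rw [e]
  refine (norm_add_le _ _).trans ?_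
  have h5 : ‖(1 / 2 : ℂ) * (log ((3 / 2 : ℝ) + t * I) - log ((3 / 2 : ℝ) + y * I))‖ ≤
      (12 + 3 / a) * Real.log y * r ^ a := by
    rw [norm_mul]
    have e2 : ‖(1 / 2 : ℂ)‖ = 1 / 2 := by norm_num
    rw [e2]
    have := norm_nonneg (log ((3 / 2 : ℝ) + t * I) - log ((3 / 2 : ℝ) + y * I))
    linarith
  have h6 : C / (1 + |t|) ≤ C * Real.log y * r ^ a := by
    calc C / (1 + |t|) = C * 1 * (1 / (1 + |t|)) := by ring
      _ ≤ C * Real.log y * r ^ a := by gcongr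
  calc _ ≤ C * Real.log y * r ^ a + (12 + 3 / a) * Real.log y * r ^ a :=
        add_le_add (h1.trans h6) h5
    _ = _ := by ring

lemma KF_int {l : ℝ} (hl : 0 < l) (y : ℝ) :
    ∫ t : ℝ, KF l (1 + ((t - y : ℝ) : ℂ) * I) = Real.pi / l := by
  have h := tri_inv hl 0
  rw [← integral_sub_right_eq_self (fun x : ℝ => Complex.exp (-((0:ℝ) : ℂ) * (1 + x * I)) *
    KF l (1 + x * I)) y] at h
  have e : (fun x : ℝ => Complex.exp (-((0:ℝ) : ℂ) * (1 + ((x - y : ℝ) : ℂ) * I)) *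
    KF l (1 + ((x - y : ℝ) : ℂ) * I)) = fun t : ℝ => KF l (1 + ((t - y : ℝ) : ℂ) * I) := by
    funext x; simp
  rw [e] at h
  rw [h]
  unfold tri
  simp only [abs_zero, zero_div, sub_zero]
  rw [max_eq_right (by norm_num)]
  have : (l : ℂ) ≠ 0 := by exact_mod_cast hl.ne'
  push_cast
  field_simp

theorem gam_part {δ : ℝ} (hδ : 0 < δ) (hδ1 : δ < 1) : ∃ C : ℝ, 0 < C ∧ ∀ T lam y : ℝ,
    6 ≤ T → 1 / Real.log T ≤ lam → lam ≤ 1 - δ → T / 2 < y → y < 2 * T →
    Integrable (fun t : ℝ => gPart ((3 / 2 : ℝ) + t * I) *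
      KF (lam * Real.log T) (1 + ((t - y : ℝ) : ℂ) * I)) ∧
    (∫ t : ℝ, gPart ((3 / 2 : ℝ) + t * I) *
      KF (lam * Real.log T) (1 + ((t - y : ℝ) : ℂ) * I)).re ≤
      Real.pi / (2 * lam) + C / (lam * Real.log T) := by
  obtain ⟨a, ha'⟩ : ∃ a, a = 1 - δ / 2 := ⟨_, rfl⟩
  have ha : 0 < a := by rw [ha']; linarith
  have ha1 : a < 1 := by rw [ha']; linarith
  obtain ⟨K, hK, hKb⟩ := gam_diff ha ha1
  obtain ⟨M, hM⟩ : ∃ M : ℝ, M = ∫ x : ℝ, (1 + |x|) ^ a / (1 + x ^ 2) := ⟨_, rfl⟩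
  have hM0 : 0 ≤ M := by rw [hM]; apply integral_nonneg; intro x; positivity
  refine ⟨K * (2 * M) * (8 / δ) + 1, by positivity, fun T lam y hT hlam hlam1 hy1 hy2 => ?_⟩
  have hT0 : 0 < T := by linarith
  have hlogT : 1 ≤ Real.log T := by
    rw [Real.le_log_iff_exp_le hT0]
    exact Real.exp_one_lt_d9.le.trans (by linarith)
  have hlogT0 : 0 < Real.log T := by linarith
  have hlam0 : 0 < lam := lt_of_lt_of_le (by positivity) hlam
  obtain ⟨l, hl'⟩ : ∃ l, l = lam * Real.log T := ⟨_, rfl⟩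
  have hl1 : 1 ≤ l := by
    rw [hl']
    rwa [div_le_iff₀ hlogT0] at hlam
  have hl : 0 < l := by linarith
  rw [← hl']
  have hy3 : 3 ≤ y := by linarith
  have hy0 : 0 < y := by linarith
  have hlogy : 1 ≤ Real.log y := by
    rw [Real.le_log_iff_exp_le hy0]
    exact Real.exp_one_lt_d9.le.trans (by linarith)
  obtain ⟨c, hc⟩ : ∃ c : ℂ, c = (1 / 2) * (log ((3 / 2 : ℝ) + y * I) -
      (Real.log (2 * Real.pi) : ℂ)) := ⟨_, rfl⟩
  have hKi := KF_shift_integrable hl y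
  have hKc : Continuous (fun t : ℝ => KF l (1 + ((t - y : ℝ) : ℂ) * I)) :=
    (KF_diff l).continuous.comp (by fun_prop)
  obtain ⟨N, hN⟩ : ∃ N : ℝ, N = K * Real.log y * y ^ (-a) * (2 * Real.exp l / l ^ 2) := ⟨_, rfl⟩
  have hb : ∀ t : ℝ, ‖(gPart ((3 / 2 : ℝ) + t * I) - c) * KF l (1 + ((t - y : ℝ) : ℂ) * I)‖ ≤
      N * ((1 + |t - y|) ^ a / (1 + (t - y) ^ 2)) := by
    intro t
    rw [norm_mul]
    have h1 := hKb y hy3 t
    rw [← hc] at h1
    have h2 := KF_line hl (t - y)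
    have hty := abs_nonneg (t - y)
    have h3 : ((1 + |t - y|) / y) ^ a = y ^ (-a) * (1 + |t - y|) ^ a := by
      rw [Real.div_rpow (by linarith) hy0.le, Real.rpow_neg hy0.le]
      ring
    rw [h3] at h1
    have h4 : 0 < (1 + |t - y|) ^ a := Real.rpow_pos_of_pos (by linarith) a
    have h5 : 0 < y ^ (-a) := Real.rpow_pos_of_pos hy0 _
    calc ‖gPart ((3 / 2 : ℝ) + t * I) - c‖ * ‖KF l (1 + ((t - y : ℝ) : ℂ) * I)‖
        ≤ (K * Real.log y * (y ^ (-a) * (1 + |t - y|) ^ a)) *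
          (2 * Real.exp l / l ^ 2 / (1 + (t - y) ^ 2)) :=
          mul_le_mul h1 h2 (norm_nonneg _) (by positivity)
      _ = _ := by rw [hN]; ring
  have hai := (int_a ha ha1).comp_sub_right y
  have hEi : Integrable (fun t : ℝ => (gPart ((3 / 2 : ℝ) + t * I) - c) *
      KF l (1 + ((t - y : ℝ) : ℂ) * I)) := by
    refine (hai.const_mul N).mono' ?_ (Eventually.of_forall hb)
    exact ((gPart_line_cont.sub continuous_const).mul hKc).aestronglyMeasurable
  have hci : Integrable (fun t : ℝ => c * KF l (1 + ((t - y : ℝ) : ℂ) * I)) := hKi.const_mul c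
  have esum : (fun t : ℝ => gPart ((3 / 2 : ℝ) + t * I) * KF l (1 + ((t - y : ℝ) : ℂ) * I)) =
      fun t : ℝ => c * KF l (1 + ((t - y : ℝ) : ℂ) * I) + (gPart ((3 / 2 : ℝ) + t * I) - c) *
      KF l (1 + ((t - y : ℝ) : ℂ) * I) := by
    funext t; ring
  rw [esum]
  refine ⟨hci.add hEi, ?_⟩
  rw [integral_add hci hEi, integral_const_mul, KF_int hl y, Complex.add_re]
  have hcre : (c * (Real.pi / l : ℂ)).re = c.re * (Real.pi / l) := by
    have : (Real.pi / l : ℂ) = ((Real.pi / l : ℝ) : ℂ) := by push_cast; ring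
    rw [this, Complex.re_mul_ofReal]
  have hwre : ((3 / 2 : ℝ) + y * I : ℂ).re = 3 / 2 := by simp
  have hwim : ((3 / 2 : ℝ) + y * I : ℂ).im = y := by simp
  have hc2 : c.re ≤ Real.log T / 2 := by
    have e : c.re = (1 / 2) * (Real.log ‖((3 / 2 : ℝ) + y * I : ℂ)‖ - Real.log (2 * Real.pi)) := by
      rw [hc, show (1 / 2 : ℂ) = ((1 / 2 : ℝ) : ℂ) by push_cast; ring, Complex.re_ofReal_mul,
        Complex.sub_re, Complex.log_re, Complex.ofReal_re]
    rw [e]
    have h1 : ‖((3 / 2 : ℝ) + y * I : ℂ)‖ ≤ 2 * Real.pi * T := by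
      have h2 := Complex.norm_le_abs_re_add_abs_im ((3 / 2 : ℝ) + y * I : ℂ)
      rw [hwre, hwim, abs_of_pos hy0, abs_of_pos (by norm_num)] at h2
      have := Real.pi_gt_three
      nlinarith
    have h3 : 0 < ‖((3 / 2 : ℝ) + y * I : ℂ)‖ := by
      have h2 := Complex.abs_re_le_norm ((3 / 2 : ℝ) + y * I : ℂ)
      rw [hwre, abs_of_pos (by norm_num)] at h2
      linarith
    have h4 := Real.log_le_log h3 h1
    rw [Real.log_mul (by positivity) hT0.ne'] at h4
    linarith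
  have hEre : (∫ t : ℝ, (gPart ((3 / 2 : ℝ) + t * I) - c) *
      KF l (1 + ((t - y : ℝ) : ℂ) * I)).re ≤ N * M := by
    have h1 := norm_integral_le_of_norm_le (hai.const_mul N) (Eventually.of_forall hb)
    rw [integral_const_mul] at h1
    have h2 : ∫ t : ℝ, (1 + |t - y|) ^ a / (1 + (t - y) ^ 2) = M := by
      rw [hM]
      exact integral_sub_right_eq_self (fun x : ℝ => (1 + |x|) ^ a / (1 + x ^ 2)) y
    rw [h2] at h1
    exact (Complex.re_le_norm _).trans h1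
  have hNb : N ≤ K * 2 * (8 / δ) / l := by
    have hTl : Real.exp l = T ^ lam := by
      rw [hl', Real.rpow_def_of_pos hT0]; ring_nf
    have h1 : T ^ lam ≤ T ^ (1 - δ) := Real.rpow_le_rpow_of_exponent_le (by linarith) hlam1
    have h2 : y ^ (-a) ≤ 2 * T ^ (-a) := by
      have h3 : y ^ (-a) ≤ (T / 2) ^ (-a) :=
        Real.rpow_le_rpow_of_nonpos (by linarith) hy1.le (by linarith)
      have h4 : (T / 2) ^ (-a) = 2 ^ a * T ^ (-a) := by
        rw [Real.div_rpow hT0.le (by norm_num), Real.rpow_neg (by norm_num : (0:ℝ) ≤ 2)]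
        field_simp
      have h5 : (2:ℝ) ^ a ≤ 2 := by
        calc (2:ℝ) ^ a ≤ 2 ^ (1:ℝ) := Real.rpow_le_rpow_of_exponent_le (by norm_num) ha1.le
          _ = 2 := Real.rpow_one 2
      rw [h4] at h3
      refine h3.trans ?_
      have := Real.rpow_pos_of_pos hT0 (-a)
      gcongr
    have h3 : Real.log y ≤ 4 / δ * T ^ (δ / 2) := by
      have h4 : Real.log y ≤ y ^ (δ / 2) / (δ / 2) := Real.log_le_rpow_div hy0.le (by linarith)
      have h5 : y ^ (δ / 2) ≤ (2 * T) ^ (δ / 2) := Real.rpow_le_rpow hy0.le hy2.le (by linarith)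
      rw [Real.mul_rpow (by norm_num) hT0.le] at h5
      have h6 : (2:ℝ) ^ (δ / 2) ≤ 2 := by
        calc (2:ℝ) ^ (δ / 2) ≤ 2 ^ (1:ℝ) :=
              Real.rpow_le_rpow_of_exponent_le (by norm_num) (by linarith)
          _ = 2 := Real.rpow_one 2
      have h7 := Real.rpow_pos_of_pos hT0 (δ / 2)
      calc Real.log y ≤ y ^ (δ / 2) / (δ / 2) := h4
        _ ≤ (2 * T ^ (δ / 2)) / (δ / 2) := by
            gcongr
            refine h5.trans ?_
            gcongr
        _ = _ := by field_simp; ring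
    have h7 := Real.rpow_pos_of_pos hT0 (δ / 2)
    have h8 := Real.rpow_pos_of_pos hT0 (-a)
    have h9 := Real.rpow_pos_of_pos hT0 (1 - δ)
    have h10 := Real.rpow_pos_of_pos hy0 (-a)
    have h11 : T ^ (δ / 2) * T ^ (-a) * T ^ (1 - δ) = 1 := by
      rw [← Real.rpow_add hT0, ← Real.rpow_add hT0]
      rw [show δ / 2 + -a + (1 - δ) = 0 by rw [ha']; ring, Real.rpow_zero]
    rw [hN, hTl]
    calc K * Real.log y * y ^ (-a) * (2 * T ^ lam / l ^ 2)
        ≤ K * (4 / δ * T ^ (δ / 2)) * (2 * T ^ (-a)) * (2 * T ^ (1 - δ) / l ^ 2) := by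
          gcongr
      _ = (K * 2 * (8 / δ)) * (T ^ (δ / 2) * T ^ (-a) * T ^ (1 - δ)) / l ^ 2 := by ring
      _ = (K * 2 * (8 / δ)) / l ^ 2 := by rw [h11, mul_one]
      _ ≤ (K * 2 * (8 / δ)) / l := by
          apply div_le_div_of_nonneg_left (by positivity) hl
          nlinarith
  rw [hcre]
  have h1 : c.re * (Real.pi / l) ≤ Real.log T / 2 * (Real.pi / l) := by
    have := Real.pi_pos
    gcongr
  have h2 : Real.log T / 2 * (Real.pi / l) = Real.pi / (2 * lam) := by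
    rw [hl']; field_simp
  have h3 : N * M ≤ K * 2 * (8 / δ) / l * M := mul_le_mul_of_nonneg_right hNb hM0
  have h4 : (K * (2 * M) * (8 / δ) + 1) / l = K * 2 * (8 / δ) / l * M + 1 / l := by ring
  have h5 : 0 < 1 / l := by positivity
  rw [h4]
  linarith

end Pool.Agent.Lib.MP_6bc78b_nt.MS.P1.PT
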